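import Pool.Agent.helper17.MLG.Spec

set_option autoImplicit false
set_option linter.unusedSectionVars false

namespace Pool.Agent.MLG

open MeasureTheory Set Filter Topology Module
open scoped ENNReal ContDiff

theorem VBL (hFRA : FRA_stmt) (hMES : MES_stmt) : VBL_stmt := by
  intro V _ _ _ _ _ _ hV
  obtain ⟨_, _, _, _, hrho, hpos, _⟩ := hFRA V hV
  obtain ⟨hHaar, _, _⟩ := hMES V hV
  have htop := top hV
  have hc : Continuous (rho : V → ℝ) := hrho.continuous
  have hcomp : IsCompact (Metric.closedBall (1 : V) 1) := isCompact_closedBall _ _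
  have hne : (Metric.closedBall (1 : V) 1).Nonempty := ⟨1, Metric.mem_closedBall_self zero_le_one⟩
  obtain ⟨p, hp, hmin⟩ := hcomp.exists_isMinOn hne hc.continuousOn
  obtain ⟨q, hq, hmax⟩ := hcomp.exists_isMaxOn hne hc.continuousOn
  have hB0 : 0 < (volume : Measure V) (Metric.ball (0 : V) 1) := Metric.measure_ball_pos _ _ one_pos
  have hB1 : (volume : Measure V) (Metric.ball (0 : V) 1) < (⊤ : ℝ≥0∞) := measure_ball_lt_top
  have hB : 0 < ((volume : Measure V) (Metric.ball (0 : V) 1)).toReal := ENNReal.toReal_pos hB0.ne' hB1.ne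
  have hBe : ENNReal.ofReal ((volume : Measure V) (Metric.ball (0 : V) 1)).toReal = (volume : Measure V) (Metric.ball (0 : V) 1) :=
    ENNReal.ofReal_toReal hB1.ne
  refine ⟨rho p * ((volume : Measure V) (Metric.ball (0 : V) 1)).toReal, rho q * ((volume : Measure V) (Metric.ball (0 : V) 1)).toReal,
    1, mul_pos (hpos p) hB, mul_pos (hpos q) hB, one_pos, ?_⟩
  intro x r hr hr1
  have h1 : vol V (bl x r) = vol V (Metric.ball (1 : V) r) := by
    unfold bl
    rw [Set.image_mul_left]
    exact measure_preimage_mul (vol V) x⁻¹ _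
  have h2 : vol V (Metric.ball (1 : V) r) = ∫⁻ y in Metric.ball (1 : V) r, ENNReal.ofReal (rho y) := by
    unfold vol
    rw [withDensity_apply _ measurableSet_ball]
  have h3 : (volume : Measure V) (Metric.ball (1 : V) r) =
      ENNReal.ofReal (r ^ finrank ℝ V) * (volume : Measure V) (Metric.ball (0 : V) 1) :=
    Measure.addHaar_ball_of_pos volume 1 hr
  have hsub : ∀ y ∈ Metric.ball (1 : V) r, y ∈ Metric.closedBall (1 : V) 1 := fun y hy =>
    Metric.closedBall_subset_closedBall hr1 (Metric.ball_subset_closedBall hy)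
  rw [h1, h2]
  have hrn : (0 : ℝ) ≤ r ^ finrank ℝ V := by positivity
  constructor
  · have h4 : ENNReal.ofReal (rho p * ((volume : Measure V) (Metric.ball (0 : V) 1)).toReal * r ^ finrank ℝ V) =
        ∫⁻ _ in Metric.ball (1 : V) r, ENNReal.ofReal (rho p) := by
      rw [setLIntegral_const, h3, ENNReal.ofReal_mul (mul_nonneg (hpos p).le hB.le), ENNReal.ofReal_mul (hpos p).le, hBe]
      ring
    rw [h4]
    exact setLIntegral_mono' measurableSet_ball (fun y hy => ENNReal.ofReal_le_ofReal (hmin (hsub y hy)))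
  · have h4 : ENNReal.ofReal (rho q * ((volume : Measure V) (Metric.ball (0 : V) 1)).toReal * r ^ finrank ℝ V) =
        ∫⁻ _ in Metric.ball (1 : V) r, ENNReal.ofReal (rho q) := by
      rw [setLIntegral_const, h3, ENNReal.ofReal_mul (mul_nonneg (hpos q).le hB.le), ENNReal.ofReal_mul (hpos q).le, hBe]
      ring
    rw [h4]
    exact setLIntegral_mono' measurableSet_ball (fun y hy => ENNReal.ofReal_le_ofReal (hmax (hsub y hy)))

end Pool.Agent.MLG
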